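import Mathlib
import Pool.Agent.H27.RC.Stmts

/-!
Module MB of the project RC (MP_c00d13_an): basic facts about models.
-/

open scoped ENNReal NNReal InnerProductSpace ComplexOrder
open Filter Topology

noncomputable section

namespace Pool.Agent.H90.RC

open Pool.Agent.H27.RC

/-! ## Operators on `Hil n` -/

section hil

variable {n : ℕ}

theorem norm_del (p : ℤ × Fin n) : ‖(del p : Hil n)‖ = 1 := by
  unfold del
  rw [lp.norm_single (by norm_num)]
  simp

theorem inner_del_left (p : ℤ × Fin n) (v : Hil n) : ⟪del p, v⟫_ℂ = v p := by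
  unfold del
  rw [lp.inner_single_left]
  simp

theorem entry_eq_inner (T : Hil n →L[ℂ] Hil n) (p q : ℤ × Fin n) :
    entry T p q = ⟪del p, T (del q)⟫_ℂ := by
  rw [inner_del_left]
  rfl

theorem norm_entry_le (T : Hil n →L[ℂ] Hil n) (p q : ℤ × Fin n) : ‖entry T p q‖ ≤ ‖T‖ := by
  rw [entry_eq_inner]
  calc ‖⟪del p, T (del q)⟫_ℂ‖ ≤ ‖(del p : Hil n)‖ * ‖T (del q)‖ := norm_inner_le_norm _ _
    _ ≤ 1 * (‖T‖ * 1) := by
        rw [norm_del]
        gcongr
        calc ‖T (del q)‖ ≤ ‖T‖ * ‖(del q : Hil n)‖ := T.le_opNorm _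
          _ = ‖T‖ * 1 := by rw [norm_del]
    _ = ‖T‖ := by ring

theorem entry_sub (S T : Hil n →L[ℂ] Hil n) (p q : ℤ × Fin n) :
    entry (S - T) p q = entry S p q - entry T p q := rfl

theorem entry_star (T : Hil n →L[ℂ] Hil n) (p q : ℤ × Fin n) :
    entry (star T) p q = (starRingEnd ℂ) (entry T q p) := by
  rw [entry_eq_inner, entry_eq_inner, ContinuousLinearMap.star_eq_adjoint,
    ContinuousLinearMap.adjoint_inner_right]
  exact (inner_conj_symm (T (del p)) (del q)).symm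

theorem hasSum_del (v : Hil n) : HasSum (fun p : ℤ × Fin n => v p • (del p : Hil n)) v := by
  have h := lp.hasSum_single (p := 2) (by norm_num) v
  convert h using 2 with p
  unfold del
  rw [← lp.single_smul]
  simp

theorem ext_entry {S T : Hil n →L[ℂ] Hil n} (h : ∀ p q, entry S p q = entry T p q) : S = T := by
  ext1 v
  have h1 := (hasSum_del v).mapL S
  have h2 := (hasSum_del v).mapL T
  have e : (fun p : ℤ × Fin n => S (v p • (del p : Hil n)))
      = fun p : ℤ × Fin n => T (v p • (del p : Hil n)) := by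
    funext q
    rw [map_smul, map_smul]
    congr 1
    ext p
    exact h p q
  rw [e] at h1
  exact h1.unique h2

/-- positivity can be tested on finitely supported vectors -/
theorem nonneg_of_entries (S : Hil n →L[ℂ] Hil n)
    (h : ∀ v : (ℤ × Fin n) →₀ ℂ,
      0 ≤ ∑ p ∈ v.support, ∑ q ∈ v.support, (starRingEnd ℂ) (v p) * entry S p q * v q) :
    0 ≤ S := by
  have key : ∀ v : Hil n, 0 ≤ ⟪v, S v⟫_ℂ := by
    intro v
    have h1 := hasSum_del v
    have h2 : Tendsto (fun s : Finset (ℤ × Fin n) =>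
        ⟪∑ p ∈ s, v p • (del p : Hil n), S (∑ p ∈ s, v p • (del p : Hil n))⟫_ℂ) atTop
        (𝓝 ⟪v, S v⟫_ℂ) := by
      refine Filter.Tendsto.inner h1 ?_
      exact (S.continuous.tendsto _).comp h1
    refine ge_of_tendsto' h2 fun s => ?_
    let w : (ℤ × Fin n) →₀ ℂ := Finsupp.onFinset s (fun p => if p ∈ s then v p else 0)
      (fun p hp => by
        by_contra hc
        simp [hc] at hp)
    have hw := h w
    have hw1 : ∀ p ∈ s, w p = v p := by
      intro p hp
      simp [w, hp]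
    have hws : w.support ⊆ s := Finsupp.support_onFinset_subset
    have e1 : ∑ p ∈ w.support, ∑ q ∈ w.support, (starRingEnd ℂ) (w p) * entry S p q * w q
        = ∑ p ∈ s, ∑ q ∈ s, (starRingEnd ℂ) (v p) * entry S p q * v q := by
      rw [Finset.sum_subset hws]
      · refine Finset.sum_congr rfl fun p hp => ?_
        rw [Finset.sum_subset hws]
        · refine Finset.sum_congr rfl fun q hq => ?_
          rw [hw1 p hp, hw1 q hq]
        · intro q _ hq
          rw [Finsupp.notMem_support_iff.1 hq, mul_zero]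
      · intro p _ hp
        rw [Finsupp.notMem_support_iff.1 hp]
        simp
    rw [e1] at hw
    have e2 : ⟪∑ p ∈ s, v p • (del p : Hil n), S (∑ p ∈ s, v p • (del p : Hil n))⟫_ℂ
        = ∑ p ∈ s, ∑ q ∈ s, (starRingEnd ℂ) (v p) * entry S p q * v q := by
      rw [map_sum, sum_inner]
      refine Finset.sum_congr rfl fun p _ => ?_
      rw [inner_sum]
      refine Finset.sum_congr rfl fun q _ => ?_
      rw [map_smul, inner_smul_left, inner_smul_right, ← entry_eq_inner]
      ring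
    rw [e2]
    exact hw
  rw [ContinuousLinearMap.nonneg_iff_isPositive, ContinuousLinearMap.isPositive_iff_complex]
  intro v
  have h1 := key v
  have h2 : ⟪S v, v⟫_ℂ = (starRingEnd ℂ) ⟪v, S v⟫_ℂ := (inner_conj_symm _ _).symm
  rw [Complex.nonneg_iff] at h1
  have h3 : (⟪S v, v⟫_ℂ).re = (⟪v, S v⟫_ℂ).re := by rw [h2, Complex.conj_re]
  have h4 : (⟪S v, v⟫_ℂ).im = 0 := by rw [h2, Complex.conj_im, ← h1.2, neg_zero]
  refine ⟨?_, ?_⟩
  · apply Complex.ext
    · rfl
    · exact h4.symm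
  · change 0 ≤ (⟪S v, v⟫_ℂ).re
    rw [h3]
    exact h1.1

end hil

/-! ## Positivity in the fibres -/

section main

variable {X : Type} [TopologicalSpace X] {h : X ≃ₜ X} {n : ℕ}
  {𝒜 : Type} [CStarAlgebra 𝒜]

theorem eq_of_fib (M : Model h n 𝒜) {S T : 𝒜} (hST : ∀ x, M.fib x S = M.fib x T) : S = T := by
  have h1 : S - T = 0 := M.inj _ fun x => by rw [map_sub, hST x, sub_self]
  exact sub_eq_zero.1 h1

theorem eq_of_entries (M : Model h n 𝒜) {S T : 𝒜}
    (hST : ∀ x p q, entry (M.fib x S) p q = entry (M.fib x T) p q) : S = T :=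
  eq_of_fib M fun x => ext_entry (hST x)

theorem nonneg_of_fib [PartialOrder 𝒜] [StarOrderedRing 𝒜] (M : Model h n 𝒜) (T : 𝒜)
    (hT : ∀ x, 0 ≤ M.fib x T) : 0 ≤ T := by
  have hsa : IsSelfAdjoint T := by
    refine eq_of_fib M fun x => ?_
    rw [map_star]
    exact (IsSelfAdjoint.of_nonneg (hT x)).star_eq
  have hN0 : 0 ≤ T⁻ := CFC.negPart_nonneg T
  have hNsa : IsSelfAdjoint (T⁻) := IsSelfAdjoint.of_nonneg hN0
  have hPN : T⁺ - T⁻ = T := CFC.posPart_sub_negPart T hsa
  have hprod : T⁻ * T⁺ = 0 := CFC.negPart_mul_posPart T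
  have h1 : T⁻ * T * T⁻ = -(T⁻ * T⁻ * T⁻) := by
    have h0 : T⁻ * T * T⁻ = T⁻ * (T⁺ - T⁻) * T⁻ := by rw [hPN]
    rw [h0, mul_sub, sub_mul, hprod, zero_mul, zero_sub]
  have h2 : ∀ x, M.fib x (T⁻ * T⁻ * T⁻) = 0 := by
    intro x
    have hNx : 0 ≤ M.fib x (T⁻) := map_nonneg (M.fib x) hN0
    have hNxs : star (M.fib x (T⁻)) = M.fib x (T⁻) := (IsSelfAdjoint.of_nonneg hNx).star_eq
    have a1 : 0 ≤ M.fib x (T⁻) * M.fib x T * M.fib x (T⁻) := by
      have := star_left_conjugate_nonneg (hT x) (M.fib x (T⁻))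
      rwa [hNxs] at this
    have a2 : 0 ≤ M.fib x (T⁻) * M.fib x (T⁻) * M.fib x (T⁻) := by
      have := star_left_conjugate_nonneg hNx (M.fib x (T⁻))
      rwa [hNxs] at this
    have a3 : M.fib x (T⁻) * M.fib x T * M.fib x (T⁻)
        = -(M.fib x (T⁻) * M.fib x (T⁻) * M.fib x (T⁻)) := by
      rw [← map_mul, ← map_mul, h1, map_neg, map_mul, map_mul]
    rw [a3] at a1
    have a4 : M.fib x (T⁻) * M.fib x (T⁻) * M.fib x (T⁻) ≤ 0 := by
      have := neg_nonneg.1 a1
      exact this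
    rw [map_mul, map_mul]
    exact le_antisymm a4 a2
  have h3 : T⁻ * T⁻ * T⁻ = 0 := M.inj _ h2
  have h4 : T⁻ * T⁻ = 0 := by
    have e : star (T⁻ * T⁻) * (T⁻ * T⁻) = 0 := by
      rw [star_mul, hNsa.star_eq, ← mul_assoc, h3, zero_mul]
    exact CStarRing.star_mul_self_eq_zero_iff (T⁻ * T⁻) |>.1 e
  have h5 : T⁻ = 0 := by
    have e : star (T⁻) * (T⁻) = 0 := by
      rw [hNsa.star_eq, h4]
    exact CStarRing.star_mul_self_eq_zero_iff (T⁻) |>.1 e
  rw [← hPN, h5, sub_zero]
  exact CFC.posPart_nonneg T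

/-! ## Covariance and continuity -/

theorem norm_entry_fib_sub_le (M : Model h n 𝒜) (S T : 𝒜) (x : X) (p q : ℤ × Fin n) :
    ‖entry (M.fib x S) p q - entry (M.fib x T) p q‖ ≤ ‖S - T‖ := by
  rw [← entry_sub, ← map_sub]
  exact (norm_entry_le _ p q).trans (NonUnitalStarAlgHom.norm_apply_le (M.fib x) (S - T))

theorem zpow_apply_add (h : X ≃ₜ X) (i k : ℤ) (x : X) :
    (h ^ i) ((h ^ k) x) = (h ^ (i + k)) x := by
  rw [zpow_add]
  rfl

theorem band_cov {S : X → Hil n →L[ℂ] Hil n} {r : ℕ} {c : ℤ → X → Matrix (Fin n) (Fin n) ℂ}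
    (hb : HasBand h S r c) (k : ℤ) (x : X) (p q : ℤ × Fin n) :
    entry (S ((h ^ k) x)) p q = entry (S x) (p.1 + k, p.2) (q.1 + k, q.2) := by
  rw [hb.2, hb.2]
  simp only
  rw [zpow_apply_add, show p.1 + k - (q.1 + k) = p.1 - q.1 by ring]

theorem band_cont {S : X → Hil n →L[ℂ] Hil n} {r : ℕ} {c : ℤ → X → Matrix (Fin n) (Fin n) ℂ}
    (hb : HasBand h S r c) (p q : ℤ × Fin n) :
    Continuous fun x => entry (S x) p q := by
  have e : (fun x => entry (S x) p q) = fun x =>
      if |p.1 - q.1| ≤ (r : ℤ) then c (p.1 - q.1) ((h ^ p.1) x) p.2 q.2 else 0 := by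
    funext x
    exact hb.2 x p q
  rw [e]
  split_ifs with hc
  · have h1 := (hb.1 (p.1 - q.1)).comp (h ^ p.1).continuous
    exact (continuous_apply q.2).comp ((continuous_apply p.2).comp h1)
  · exact continuous_const

theorem cov (M : Model h n 𝒜) (T : 𝒜) (k : ℤ) (x : X) (p q : ℤ × Fin n) :
    entry (M.fib ((h ^ k) x) T) p q = entry (M.fib x T) (p.1 + k, p.2) (q.1 + k, q.2) := by
  rw [← sub_eq_zero, ← norm_eq_zero]
  refine le_antisymm (le_of_forall_pos_le_add fun ε hε => ?_) (norm_nonneg _)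
  obtain ⟨S, hS, r, c, hb⟩ := M.dense T (ε / 2) (by positivity)
  have hc := band_cov hb k x p q
  have h1 := norm_entry_fib_sub_le M T S ((h ^ k) x) p q
  have h2 := norm_entry_fib_sub_le M S T x (p.1 + k, p.2) (q.1 + k, q.2)
  rw [norm_sub_rev] at h2
  have h3 : entry (M.fib ((h ^ k) x) T) p q - entry (M.fib x T) (p.1 + k, p.2) (q.1 + k, q.2)
      = (entry (M.fib ((h ^ k) x) T) p q - entry (M.fib ((h ^ k) x) S) p q)
        - (entry (M.fib x T) (p.1 + k, p.2) (q.1 + k, q.2)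
          - entry (M.fib x S) (p.1 + k, p.2) (q.1 + k, q.2)) := by
    rw [hc]
    ring
  rw [h3]
  calc _ ≤ ‖entry (M.fib ((h ^ k) x) T) p q - entry (M.fib ((h ^ k) x) S) p q‖
        + ‖entry (M.fib x T) (p.1 + k, p.2) (q.1 + k, q.2)
          - entry (M.fib x S) (p.1 + k, p.2) (q.1 + k, q.2)‖ := norm_sub_le _ _
    _ ≤ ε / 2 + ε / 2 := by
        refine add_le_add (h1.trans hS) (h2.trans ?_)
        rw [norm_sub_rev]
        exact hS
    _ = 0 + ε := by ring

theorem cont (M : Model h n 𝒜) (T : 𝒜) (p q : ℤ × Fin n) :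
    Continuous fun x => entry (M.fib x T) p q := by
  rw [continuous_iff_continuousAt]
  intro x₀
  rw [Metric.continuousAt_iff']
  intro ε hε
  obtain ⟨S, hS, r, c, hb⟩ := M.dense T (ε / 4) (by positivity)
  have hcont := (band_cont hb p q).continuousAt (x := x₀)
  rw [Metric.continuousAt_iff'] at hcont
  filter_upwards [hcont (ε / 4) (by positivity)] with x hx
  have h1 := (norm_entry_fib_sub_le M T S x p q).trans hS
  have h2 := (norm_entry_fib_sub_le M T S x₀ p q).trans hS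
  rw [dist_eq_norm] at hx ⊢
  have h3 : entry (M.fib x T) p q - entry (M.fib x₀ T) p q
      = (entry (M.fib x T) p q - entry (M.fib x S) p q)
        + (entry (M.fib x S) p q - entry (M.fib x₀ S) p q)
        - (entry (M.fib x₀ T) p q - entry (M.fib x₀ S) p q) := by
    ring
  rw [h3]
  calc _ ≤ ‖(entry (M.fib x T) p q - entry (M.fib x S) p q)
        + (entry (M.fib x S) p q - entry (M.fib x₀ S) p q)‖
        + ‖entry (M.fib x₀ T) p q - entry (M.fib x₀ S) p q‖ := norm_sub_le _ _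
    _ ≤ (‖entry (M.fib x T) p q - entry (M.fib x S) p q‖
        + ‖entry (M.fib x S) p q - entry (M.fib x₀ S) p q‖)
        + ‖entry (M.fib x₀ T) p q - entry (M.fib x₀ S) p q‖ := by
        gcongr
        exact norm_add_le _ _
    _ < ε := by linarith

/-! ## Positive band approximants -/

theorem entry_star_mul (S : Hil n →L[ℂ] Hil n) (p q : ℤ × Fin n) :
    entry (star S * S) p q = ∑' w : ℤ × Fin n, (starRingEnd ℂ) (entry S w p) * entry S w q := by
  rw [entry_eq_inner]
  have e : (star S * S) (del q) = (ContinuousLinearMap.adjoint S) (S (del q)) := rfl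
  rw [e, ContinuousLinearMap.adjoint_inner_right, lp.inner_eq_tsum]
  refine tsum_congr fun w => ?_
  simp only [RCLike.inner_apply, entry]
  ring

/-- the coefficients of the product `S* S` -/
def dco (h : X ≃ₜ X) (r : ℕ) (c : ℤ → X → Matrix (Fin n) (Fin n) ℂ) (k : ℤ) (y : X) :
    Matrix (Fin n) (Fin n) ℂ :=
  fun e f => ∑ l ∈ Finset.Icc (-(r : ℤ)) r, if |l + k| ≤ (r : ℤ) then
    ∑ g : Fin n, (starRingEnd ℂ) (c l ((h ^ l) y) g e) * c (l + k) ((h ^ l) y) g f else 0

theorem dco_cont (h : X ≃ₜ X) (r : ℕ) {c : ℤ → X → Matrix (Fin n) (Fin n) ℂ}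
    (hc : ∀ k, Continuous (c k)) (k : ℤ) : Continuous (dco h r c k) := by
  refine continuous_pi fun e => continuous_pi fun f => ?_
  unfold dco
  refine continuous_finsetSum _ fun l _ => ?_
  split_ifs with hl
  · refine continuous_finsetSum _ fun g _ => ?_
    have h1 : ∀ (m : ℤ) (a b : Fin n), Continuous fun y => c m ((h ^ l) y) a b := by
      intro m a b
      have h1 := (hc m).comp (h ^ l).continuous
      exact (continuous_apply b).comp ((continuous_apply a).comp h1)
    exact (continuous_star.comp (h1 _ _ _)).mul (h1 _ _ _)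
  · exact continuous_const

theorem band_star_mul {S : X → Hil n →L[ℂ] Hil n} {r : ℕ}
    {c : ℤ → X → Matrix (Fin n) (Fin n) ℂ} (hb : HasBand h S r c) :
    HasBand h (fun x => star (S x) * S x) (2 * r) (dco h r c) := by
  refine ⟨dco_cont h r hb.1, fun x p q => ?_⟩
  rw [entry_star_mul]
  -- reduce to a finite sum
  have hs : ∀ w : ℤ × Fin n, w ∉ (Finset.Icc (p.1 + -(r : ℤ)) (p.1 + r)) ×ˢ (Finset.univ : Finset (Fin n)) →
      (starRingEnd ℂ) (entry (S x) w p) * entry (S x) w q = 0 := by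
    intro w hw
    rw [hb.2 x w p, if_neg, map_zero, zero_mul]
    intro hc
    apply hw
    rw [Finset.mem_product]
    refine ⟨?_, Finset.mem_univ _⟩
    rw [Finset.mem_Icc]
    rw [abs_le] at hc
    constructor <;> linarith [hc.1, hc.2]
  rw [tsum_eq_sum hs, Finset.sum_product]
  have himg : Finset.Icc (p.1 + -(r : ℤ)) (p.1 + r)
      = (Finset.Icc (-(r : ℤ)) r).map (addLeftEmbedding p.1) := by
    rw [Finset.map_add_left_Icc]
  rw [himg, Finset.sum_map]
  simp only [addLeftEmbedding_apply]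
  have hterm : ∀ l ∈ Finset.Icc (-(r : ℤ)) r,
      ∑ g : Fin n, (starRingEnd ℂ) (entry (S x) (p.1 + l, g) p) * entry (S x) (p.1 + l, g) q
      = if |l + (p.1 - q.1)| ≤ (r : ℤ) then
        ∑ g : Fin n, (starRingEnd ℂ) (c l ((h ^ l) ((h ^ p.1) x)) g p.2)
          * c (l + (p.1 - q.1)) ((h ^ l) ((h ^ p.1) x)) g q.2 else 0 := by
    intro l hl
    have hl' : |l| ≤ (r : ℤ) := by
      rw [abs_le]
      exact Finset.mem_Icc.1 hl
    have e1 : p.1 + l - p.1 = l := by ring
    have e2 : p.1 + l - q.1 = l + (p.1 - q.1) := by ring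
    have e3 : (h ^ l) ((h ^ p.1) x) = (h ^ (p.1 + l)) x := by
      rw [zpow_apply_add, add_comm]
    split_ifs with hk
    · refine Finset.sum_congr rfl fun g _ => ?_
      rw [hb.2, hb.2]
      simp only
      rw [e1, e2, if_pos hl', if_pos hk, e3]
    · refine Finset.sum_eq_zero fun g _ => ?_
      rw [hb.2 x _ q]
      simp only
      rw [e2, if_neg hk, mul_zero]
  rw [Finset.sum_congr rfl hterm]
  split_ifs with hpq
  · rfl
  · refine Finset.sum_eq_zero fun l hl => ?_
    rw [if_neg]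
    intro hc
    apply hpq
    have hl' := Finset.mem_Icc.1 hl
    rw [abs_le] at hc ⊢
    push_cast
    constructor <;> linarith [hc.1, hc.2, hl'.1, hl'.2]

theorem approx [PartialOrder 𝒜] [StarOrderedRing 𝒜] (M : Model h n 𝒜) (a : 𝒜) (ha : 0 ≤ a)
    (η : ℝ) (hη : 0 < η) :
    ∃ a₁ : 𝒜, 0 ≤ a₁ ∧ ‖a - a₁‖ ≤ η ∧ ∃ r, BandLE M a₁ r := by
  obtain ⟨y, hy⟩ : ∃ y : 𝒜, a = star y * y := by
    exact CStarAlgebra.nonneg_iff_eq_star_mul_self.1 ha
  -- choose the precision
  set K : ℝ := 2 * ‖y‖ + 1 with hK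
  have hK1 : 1 ≤ K := by
    have := norm_nonneg y
    linarith
  set δ : ℝ := min 1 (η / K) with hδ
  have hδ0 : 0 < δ := lt_min one_pos (by positivity)
  obtain ⟨S, hS, r, c, hb⟩ := M.dense y δ hδ0
  refine ⟨star S * S, star_mul_self_nonneg S, ?_, 2 * r, dco h r c, ?_⟩
  · have e : a - star S * S = star y * (y - S) + star (y - S) * S := by
      rw [hy, star_sub]
      noncomm_ring
    rw [e]
    have hSn : ‖S‖ ≤ ‖y‖ + δ := by
      calc ‖S‖ = ‖y - (y - S)‖ := by rw [sub_sub_cancel]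
        _ ≤ ‖y‖ + ‖y - S‖ := norm_sub_le _ _
        _ ≤ ‖y‖ + δ := by gcongr
    have hδ1 : δ ≤ 1 := min_le_left _ _
    have hδ2 : δ ≤ η / K := min_le_right _ _
    calc ‖star y * (y - S) + star (y - S) * S‖
        ≤ ‖star y * (y - S)‖ + ‖star (y - S) * S‖ := norm_add_le _ _
      _ ≤ ‖star y‖ * ‖y - S‖ + ‖star (y - S)‖ * ‖S‖ := by
          gcongr <;> exact norm_mul_le _ _
      _ = ‖y‖ * ‖y - S‖ + ‖y - S‖ * ‖S‖ := by rw [norm_star, norm_star]
      _ ≤ ‖y‖ * δ + δ * (‖y‖ + δ) := by gcongr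
      _ ≤ δ * K := by
          rw [hK]
          nlinarith [norm_nonneg y]
      _ ≤ (η / K) * K := by gcongr
      _ = η := by field_simp
  · have h1 := band_star_mul hb
    have e : (fun x => M.fib x (star S * S)) = fun x => star (M.fib x S) * M.fib x S := by
      funext x
      rw [map_mul, map_star]
    rw [e]
    exact h1

end main

theorem mb : MBStmt := by
  intro X _ _ h n 𝒜 _ _ _ M
  refine ⟨nonneg_of_fib M, ?_, cov M, cont M, approx M, ?_⟩
  · intro T hT
    exact nonneg_of_fib M T fun x => nonneg_of_entries _ (hT x)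
  · intro S T hST
    exact eq_of_entries M hST

end Pool.Agent.H90.RC
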